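import Mathlib

/-!
# Reflection of a polarized relation at singular cardinals: the abstract argument

MP_238593. `Equalizes μ Z`: for every colouring of `μ⁺ × μ` with values in `Z` there are
`A ⊆ μ⁺`, `B ⊆ μ` of full size such that the colour of `(a, b) ∈ A × B` depends on `b` only.
-/

set_option autoImplicit false

namespace P238593

open Cardinal Set

/-- every colouring of `μ⁺ × μ` with values in `Z` is, on some rectangle of full size, a function
of the second coordinate -/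
def Equalizes (μ : Cardinal.{0}) (Z : Type) : Prop :=
  ∀ (X Y : Type), #X = Order.succ μ → #Y = μ → ∀ c : X → Y → Z,
    ∃ A : Set X, ∃ B : Set Y, #A = Order.succ μ ∧ #B = μ ∧
      ∀ a ∈ A, ∀ a' ∈ A, ∀ b ∈ B, c a b = c a' b

/-- a colouring which is bad can be moved to any two types of the right size -/
theorem exists_bad {μ : Cardinal.{0}} {Z : Type} (h : ¬ Equalizes μ Z) (X Y : Type)
    (hX : #X = Order.succ μ) (hY : #Y = μ) :
    ∃ c : X → Y → Z, ∀ (A : Set X) (B : Set Y), #A = Order.succ μ → #B = μ →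
      ∃ a ∈ A, ∃ a' ∈ A, ∃ b ∈ B, c a b ≠ c a' b := by
  unfold Equalizes at h
  push Not at h
  obtain ⟨X', Y', hX', hY', c', hc'⟩ := h
  obtain ⟨eX⟩ := Cardinal.eq.1 (hX.trans hX'.symm)
  obtain ⟨eY⟩ := Cardinal.eq.1 (hY.trans hY'.symm)
  refine ⟨fun x y => c' (eX x) (eY y), fun A B hA hB => ?_⟩
  obtain ⟨a, ha, a', ha', b, hb, hne⟩ := hc' (eX '' A) (eY '' B)
    (by rw [mk_image_eq eX.injective]; exact hA) (by rw [mk_image_eq eY.injective]; exact hB)
  obtain ⟨a₀, ha₀, rfl⟩ := ha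
  obtain ⟨a₁, ha₁, rfl⟩ := ha'
  obtain ⟨b₀, hb₀, rfl⟩ := hb
  exact ⟨a₀, ha₀, a₁, ha₁, b₀, hb₀, hne⟩

/-- the size of the `i`-th piece of `Y` -/
noncomputable def pc {I Y : Type} [LinearOrder I] (ρ : Y → I) (i : I) : Cardinal.{0} :=
  #{y // ρ y < i}

/-- the `i`-th coordinate -/
noncomputable def W {I Y : Type} [LinearOrder I] (ρ : Y → I) (i : I) : Type :=
  (Order.succ (pc ρ i)).out

theorem mk_W {I Y : Type} [LinearOrder I] (ρ : Y → I) (i : I) :
    #(W ρ i) = Order.succ (pc ρ i) := by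
  unfold W
  exact mk_out _

/-- `κ⁺` eventually different functions -/
theorem exists_family {κ : Cardinal.{0}} {I Y : Type} [LinearOrder I] (ρ : Y → I)
    (hY : #Y = κ) (X : Type) (hX : #X = Order.succ κ) :
    ∃ f : X → ∀ i, W ρ i, ∀ a b, a ≠ b → ∃ i₀, ∀ i, i₀ < i → f a i ≠ f b i := by
  classical
  obtain ⟨r, hr, hord⟩ := Cardinal.exists_ord_eq X
  have hsm : ∀ a : X, Nonempty ({b // r b a} ↪ Y) := by
    intro a
    have h1 : #{b // r b a} < #X := by
      have := Cardinal.card_typein_lt a hord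
      rwa [Ordinal.card_typein] at this
    rw [hX, Order.lt_succ_iff, ← hY] at h1
    exact h1
  let n : ∀ a, {b // r b a} ↪ Y := fun a => (hsm a).some
  have hfresh : ∀ (a : X) (i : I) (g : ∀ b, r b a → W ρ i),
      ∃ w : W ρ i, ∀ b (h : r b a), ρ (n a ⟨b, h⟩) < i → w ≠ g b h := by
    intro a i g
    by_contra hcon
    push Not at hcon
    have h1 : ∀ w : W ρ i, ∃ b : {b // r b a}, ρ (n a b) < i ∧ w = g b.1 b.2 := by
      intro w
      obtain ⟨b, h, h1, h2⟩ := hcon w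
      exact ⟨⟨b, h⟩, h1, h2⟩
    choose B hB1 hB2 using h1
    have hinj : Function.Injective (fun w : W ρ i => (⟨n a (B w), hB1 w⟩ : {y // ρ y < i})) := by
      intro w w' hw
      have h2 : B w = B w' := (n a).injective (congrArg Subtype.val hw)
      rw [hB2 w, hB2 w', h2]
    have h3 := mk_le_of_injective hinj
    rw [mk_W] at h3
    exact absurd h3 (not_le.2 (Order.lt_succ _))
  choose fr hfr using hfresh
  let f : X → ∀ i, W ρ i := hr.wf.fix (C := fun _ => ∀ i, W ρ i)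
    (fun a F i => fr a i (fun b h => F b h i))
  have hf : ∀ a, f a = fun i => fr a i (fun b _ => f b i) := by
    intro a
    exact hr.wf.fix_eq _ a
  refine ⟨f, ?_⟩
  have key : ∀ a b, r b a → ∃ i₀, ∀ i, i₀ < i → f a i ≠ f b i := by
    intro a b h
    refine ⟨ρ (n a ⟨b, h⟩), fun i hi => ?_⟩
    rw [hf a]
    exact hfr a i (fun b _ => f b i) b h hi
  intro a b hab
  rcases trichotomous_of r a b with h | h | h
  · obtain ⟨i₀, hi₀⟩ := key b a h
    exact ⟨i₀, fun i hi => (hi₀ i hi).symm⟩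
  · exact absurd h hab
  · exact key a b h

/-- the counting argument -/
theorem count {κ : Cardinal.{0}} {I Y X : Type} [LinearOrder I] (ρ : Y → I)
    (f : X → ∀ i, W ρ i) (hf : ∀ a b, a ≠ b → ∃ i₀, ∀ i, i₀ < i → f a i ≠ f b i)
    (A : Set X) (R : Set I) (e : ∀ i, W ρ i → Y)
    (he : ∀ i ∈ R, ∀ a ∈ A, ∀ b ∈ A, e i (f a i) = e i (f b i) → f a i = f b i)
    (hcof : ∀ a ∈ A, ∃ j, ∀ i₀, ∃ i ∈ R, i₀ < i ∧ ρ (e i (f a i)) ≤ j)
    (hcard : ∀ j, #(I → Option {y // ρ y ≤ j}) ≤ κ) (hI : #I ≤ κ) (hκ : ℵ₀ ≤ κ) : #A ≤ κ := by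
  classical
  choose j hj using hcof
  let F : A → Σ j : I, (I → Option {y // ρ y ≤ j}) := fun a =>
    ⟨j a.1 a.2, fun i => if h : i ∈ R ∧ ρ (e i (f a.1 i)) ≤ j a.1 a.2 then
      some ⟨e i (f a.1 i), h.2⟩ else none⟩
  have hinj : Function.Injective F := by
    intro a b hab
    by_contra hne
    have hne' : a.1 ≠ b.1 := fun h => hne (Subtype.ext h)
    obtain ⟨i₀, hi₀⟩ := hf a.1 b.1 hne'
    obtain ⟨i, hiR, hi1, hi2⟩ := hj a.1 a.2 i₀
    have h1 : j a.1 a.2 = j b.1 b.2 := congrArg Sigma.fst hab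
    have h2 : ∀ (p q : Σ j : I, (I → Option {y // ρ y ≤ j})), p = q →
        (p.2 i).map Subtype.val = (q.2 i).map Subtype.val := by
      rintro p q rfl
      rfl
    have h3 := h2 _ _ hab
    simp only [F] at h3
    rw [dif_pos ⟨hiR, hi2⟩] at h3
    by_cases hc : i ∈ R ∧ ρ (e i (f b.1 i)) ≤ j b.1 b.2
    · rw [dif_pos hc] at h3
      simp only [Option.map_some, Option.some.injEq] at h3
      exact hi₀ i hi1 (he i hiR a.1 a.2 b.1 b.2 h3)
    · rw [dif_neg hc] at h3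
      simp at h3
  have h4 := mk_le_of_injective hinj
  refine h4.trans ?_
  rw [mk_sigma]
  refine (sum_le_sum _ (fun _ => κ) hcard).trans ?_
  rw [sum_const', ]
  exact (mul_le_mul' hI le_rfl).trans (mul_eq_self hκ).le

/-- the abstract theorem -/
theorem core {κ : Cardinal.{0}} (hκ : ℵ₀ < κ) {I Y : Type} [LinearOrder I] (ρ : Y → I)
    (hY : #Y = κ) (hI : #I < κ) (hmax : ∀ i : I, ∃ j, i < j)
    (hsmall : ∀ j, #{y // ρ y ≤ j} < κ)
    (hpow : ∀ j, #(I → Option {y // ρ y ≤ j}) ≤ κ)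
    (S : Set I) (hS : ∀ b : I → I, ∃ i ∈ S, ∀ j < i, b j < i)
    (hlim : ∀ i ∈ S, ∀ ν < pc ρ i, ∃ j < i, ν ≤ #{y // ρ y ≤ j})
    {Z : Type} (z0 : Z) (hbad : ∀ i ∈ S, ¬ Equalizes (pc ρ i) Z) : ¬ Equalizes κ (I → Z) := by
  classical
  intro H
  have hY0 : Nonempty Y := by
    rw [← mk_ne_zero_iff, hY]
    exact (aleph0_pos.trans hκ).ne'
  obtain ⟨y0⟩ := hY0
  choose c hc using fun (i : I) (hi : i ∈ S) =>
    exists_bad (hbad i hi) (W ρ i) {y // ρ y < i} (mk_W ρ i) rfl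
  let X : Type := (Order.succ κ).out
  have hX : #X = Order.succ κ := mk_out _
  obtain ⟨f, hf⟩ := exists_family ρ hY X hX
  let d : X → Y → I → Z := fun a y i =>
    if h : i ∈ S ∧ ρ y < i then c i h.1 (f a i) ⟨y, h.2⟩ else z0
  obtain ⟨A, B, hA, hB, hAB⟩ := H X Y hX hY d
  -- `B` becomes large quickly
  have hbB : ∀ j, ∃ j', #{y // ρ y ≤ j} < #{y // y ∈ B ∧ ρ y < j'} := by
    intro j
    by_contra hcon
    push Not at hcon
    have h1 : #B ≤ #(Σ j' : I, {y // y ∈ B ∧ ρ y < j'}) := by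
      choose nx hnx using hmax
      refine mk_le_of_injective (f := fun y : B =>
        (⟨nx (ρ y.1), ⟨y.1, y.2, hnx _⟩⟩ : Σ j' : I, {y // y ∈ B ∧ ρ y < j'})) ?_
      intro y y' h
      have h2 : ∀ (p q : Σ j' : I, {y // y ∈ B ∧ ρ y < j'}), p = q → p.2.1 = q.2.1 := by
        rintro p q rfl
        rfl
      exact Subtype.ext (h2 _ _ h)
    rw [hB, mk_sigma] at h1
    have h2 := h1.trans (sum_le_sum _ (fun _ => #{y // ρ y ≤ j}) hcon)
    rw [sum_const'] at h2
    exact absurd h2 (not_le.2 (mul_lt_of_lt hκ.le hI (hsmall j)))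
  choose bB hbB using hbB
  let R : Set I := {i | i ∈ S ∧ ∀ j < i, bB j < i}
  have hBR : ∀ i ∈ R, pc ρ i ≤ #{y // y ∈ B ∧ ρ y < i} := by
    intro i hi
    by_contra hcon
    rw [not_le] at hcon
    obtain ⟨j, hj, hle⟩ := hlim i hi.1 _ hcon
    have h1 : #{y // y ∈ B ∧ ρ y < bB j} ≤ #{y // y ∈ B ∧ ρ y < i} :=
      mk_subtype_mono (fun y hy => ⟨hy.1, hy.2.trans (hi.2 j hj)⟩)
    exact absurd (hle.trans_lt (hbB j)) (not_lt.2 h1)
  -- the traces of `A` are small
  have hXi : ∀ i ∈ R, #{w : W ρ i // ∃ a ∈ A, f a i = w} ≤ #{y // ρ y < i} := by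
    intro i hi
    by_contra hcon
    rw [not_le] at hcon
    have h1 : #{w : W ρ i // ∃ a ∈ A, f a i = w} = Order.succ (pc ρ i) := by
      refine le_antisymm ?_ (Order.succ_le_of_lt hcon)
      rw [← mk_W]
      exact mk_subtype_le _
    have h2 : #{y : {y // ρ y < i} | y.1 ∈ B} = pc ρ i := by
      refine le_antisymm (mk_set_le _) ((hBR i hi).trans ?_)
      refine mk_le_of_injective (f := fun y : {y // y ∈ B ∧ ρ y < i} =>
        (⟨⟨y.1, y.2.2⟩, y.2.1⟩ : {y : {y // ρ y < i} | y.1 ∈ B})) ?_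
      intro y y' h
      exact Subtype.ext (congrArg (fun z : {y : {y // ρ y < i} | y.1 ∈ B} => z.1.1) h)
    obtain ⟨a, ha, a', ha', b, hb, hne⟩ := hc i hi.1 {w | ∃ a ∈ A, f a i = w}
      {y | y.1 ∈ B} h1 h2
    obtain ⟨α, hα, rfl⟩ := ha
    obtain ⟨α', hα', rfl⟩ := ha'
    have h3 := congrFun (hAB α hα α' hα' b.1 hb) i
    simp only [d] at h3
    rw [dif_pos ⟨hi.1, b.2⟩, dif_pos ⟨hi.1, b.2⟩] at h3
    exact hne h3
  have hemb : ∀ i (hi : i ∈ R), Nonempty ({w : W ρ i // ∃ a ∈ A, f a i = w} ↪ {y // ρ y < i}) :=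
    fun i hi => hXi i hi
  let e : ∀ i, W ρ i → Y := fun i w =>
    if h : i ∈ R ∧ ∃ a ∈ A, f a i = w then ((hemb i h.1).some ⟨w, h.2⟩).1 else y0
  have heq : ∀ i (hi : i ∈ R) (a : X) (ha : a ∈ A),
      e i (f a i) = ((hemb i hi).some ⟨f a i, a, ha, rfl⟩).1 := by
    intro i hi a ha
    simp only [e]
    rw [dif_pos ⟨hi, a, ha, rfl⟩]
  have hcount : #A ≤ κ := by
    refine count ρ f hf A R e ?_ ?_ hpow hI.le hκ.le
    · intro i hi a ha b hb h
      rw [heq i hi a ha, heq i hi b hb] at h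
      have h1 := (hemb i hi).some.injective (Subtype.ext h)
      exact congrArg Subtype.val h1
    · intro a ha
      by_contra hcon
      push Not at hcon
      choose ba hba using hcon
      obtain ⟨i, hiS, hi⟩ := hS (fun j => max (bB j) (ba j))
      have hiR : i ∈ R := ⟨hiS, fun j hj => (le_max_left _ _).trans_lt (hi j hj)⟩
      have h1 : ρ (e i (f a i)) < i := by
        rw [heq i hiR a ha]
        exact ((hemb i hiR).some ⟨f a i, a, ha, rfl⟩).2
      exact absurd le_rfl (not_le.2 (hba _ i hiR ((le_max_right _ _).trans_lt (hi _ h1))))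
  rw [hA] at hcount
  exact absurd hcount (not_le.2 (Order.lt_succ _))

end P238593
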