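import Pool.Agent.Lib.P238593.Core

/-!
# MP_238593: the frame of a singular cardinal of uncountable cofinality
-/

set_option autoImplicit false

namespace P238593

open Cardinal Set

/-- stationarity of a set of cardinals below `κ`, as in the problem's frozen statement -/
def Stat (κ : Cardinal.{0}) (S : Set Cardinal.{0}) : Prop :=
  ∀ C : Set Ordinal.{0}, (∀ α ∈ C, α < κ.ord) →
    (∀ α < κ.ord, ∃ β ∈ C, α ≤ β) →
    (∀ α < κ.ord, Order.IsSuccLimit α →
      (∀ β < α, ∃ γ ∈ C, β ≤ γ ∧ γ < α) → α ∈ C) →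
    ∃ μ ∈ S, μ.ord ∈ C

theorem exists_frame {κ : Cardinal.{0}} (hκ : ℵ₀ ≤ κ) (hcof : ℵ₀ < κ.ord.cof) :
    ∃ (I Y : Type) (_ : LinearOrder I) (ρ : Y → I),
      #Y = κ ∧ #I = κ.ord.cof ∧
      (∀ s : Set I, #s < #I → ∃ j, ∀ i ∈ s, i < j) ∧
      (∀ i : I, #{j // j ≤ i} < #I) ∧
      (∀ j, #{y // ρ y ≤ j} < κ) ∧
      (∀ S : Set Cardinal.{0}, Stat κ S → ∀ b : I → I, ∃ i, pc ρ i ∈ S ∧ (∀ j < i, b j < i) ∧
        ∀ ν < pc ρ i, ∃ j < i, ν ≤ #{y // ρ y ≤ j}) := by
  classical
  let θ : Cardinal.{0} := κ.ord.cof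
  have hθ : θ = κ.ord.cof := rfl
  let I : Type := θ.ord.ToType
  let Y : Type := κ.ord.ToType
  have hIc : #I = θ := mk_ord_toType θ
  have hYc : #Y = κ := mk_ord_toType κ
  have hIcof : Order.cof I = θ := by
    have h1 : Order.cof I = θ.ord.cof := Ordinal.cof_toType θ.ord
    rw [h1, hθ, Ordinal.cof_ord_cof]
  have hYcof : Order.cof Y = θ := Ordinal.cof_toType κ.ord
  have hθ0 : ℵ₀ ≤ θ := hcof.le
  -- regularity of `I`
  have hreg : ∀ s : Set I, #s < #I → ∃ j, ∀ i ∈ s, i < j := by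
    intro s hs
    by_contra hcon
    push Not at hcon
    have h1 : IsCofinal s := fun x => by
      obtain ⟨i, hi, hx⟩ := hcon x
      exact ⟨i, hi, hx⟩
    have h2 := Order.cof_le h1
    rw [hIcof, ← hIc] at h2
    exact absurd hs (not_lt.2 h2)
  have hIic : ∀ i : I, #{j // j ≤ i} < #I := by
    intro i
    have h1 : #{j : I // j < i} < #I := by
      have := mk_Iio_lt (α := I) i (by
        rw [hIc]; exact (Ordinal.type_toType _).symm)
      exact this
    have h2 : #{j // j ≤ i} ≤ #{j : I // j < i} + 1 := by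
      have h3 : {j : I | j ≤ i} ⊆ {j : I | j < i} ∪ {i} := by
        intro j hj
        rcases lt_or_eq_of_le (show j ≤ i from hj) with h | h
        · exact Or.inl h
        · exact Or.inr h
      refine (mk_le_mk_of_subset h3).trans ((mk_union_le _ _).trans ?_)
      rw [mk_singleton]
      exact le_rfl
    refine h2.trans_lt ?_
    rw [hIc] at h1 ⊢
    exact add_lt_of_lt hθ0 h1 (one_lt_aleph0.trans_le hθ0)
  obtain ⟨T, hT, hTc⟩ := Order.exists_cof_eq Y
  rw [hYcof, ← hIc] at hTc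
  obtain ⟨eT⟩ := Cardinal.eq.1 hTc.symm
  let t : I → Y := fun i => (eT i).1
  have ht : ∀ y : Y, ∃ i, y ≤ t i := by
    intro y
    obtain ⟨z, hz, hyz⟩ := hT y
    refine ⟨eT.symm ⟨z, hz⟩, ?_⟩
    simp only [t, Equiv.apply_symm_apply]
    exact hyz
  have hmin : ∀ y : Y, ∃ i, y ≤ t i ∧ ∀ j, y ≤ t j → i ≤ j := by
    intro y
    obtain ⟨i, hi, hmi⟩ := WellFounded.has_min (wellFounded_lt (α := I)) {i | y ≤ t i} (ht y)
    exact ⟨i, hi, fun j hj => not_lt.1 (hmi j hj)⟩
  choose ρ hρ1 hρ2 using hmin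
  have hmono : ∀ y y', y ≤ y' → ρ y ≤ ρ y' := fun y y' h => hρ2 y _ (h.trans (hρ1 y'))
  -- initial pieces are bounded in `Y`
  have hbd : ∀ j : I, ∃ z : Y, ∀ y, ρ y ≤ j → y < z := by
    intro j
    have h1 : #(t '' {i | i ≤ j}) < Order.cof Y := by
      exact ((mk_image_le.trans_lt (hIic j)).trans_eq hIc).trans_eq hYcof.symm
    have h2 : ¬ IsCofinal (t '' {i | i ≤ j}) := fun h => absurd h1 (not_lt.2 (Order.cof_le h))
    unfold IsCofinal at h2
    push Not at h2
    obtain ⟨z, hz⟩ := h2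
    refine ⟨z, fun y hy => (hρ1 y).trans_lt (hz _ ⟨ρ y, hy, rfl⟩)⟩
  have hYlt : ∀ z : Y, #{y // y < z} < κ := by
    intro z
    have := mk_Iio_lt (α := Y) z (by rw [hYc]; exact (Ordinal.type_toType _).symm)
    rw [hYc] at this
    exact this
  have hsmall : ∀ j, #{y // ρ y ≤ j} < κ := by
    intro j
    obtain ⟨z, hz⟩ := hbd j
    exact (mk_subtype_mono (fun y hy => hz y hy)).trans_lt (hYlt z)
  -- the ordinal of an element
  let τ : Y → Ordinal.{0} := fun y => Ordinal.typein (α := κ.ord.ToType) (· < ·) y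
  have hτlt : ∀ y y', τ y < τ y' ↔ y < y' := fun y y' =>
    Ordinal.typein_lt_typein (α := κ.ord.ToType) (· < ·)
  have hτκ : ∀ y, τ y < κ.ord := fun y => Ordinal.typein_lt_self y
  have hτsurj : ∀ α < κ.ord, ∃ y, τ y = α := by
    intro α hα
    refine ⟨Ordinal.ToType.mk ⟨α, hα⟩, ?_⟩
    have h1 : (Ordinal.ToType.mk.symm (Ordinal.ToType.mk ⟨α, hα⟩) : Set.Iio κ.ord) = ⟨α, hα⟩ :=
      OrderIso.symm_apply_apply _ _
    exact congrArg Subtype.val h1
  have hτcard : ∀ y, (τ y).card = #{y' // y' < y} := fun y => Ordinal.card_typein (r := (· < ·)) y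
  -- the first point of the `i`-th piece
  have hm : ∀ i : I, ∃ z : Y, i ≤ ρ z ∧ ∀ y, y < z ↔ ρ y < i := by
    intro i
    have hne : {y : Y | i ≤ ρ y}.Nonempty := by
      obtain ⟨z, hz⟩ := hbd i
      refine ⟨z, ?_⟩
      by_contra hcon
      exact absurd (hz z (not_le.1 hcon).le) (lt_irrefl _)
    obtain ⟨z, hz, hmz⟩ := WellFounded.has_min (wellFounded_lt (α := Y)) {y : Y | i ≤ ρ y} hne
    refine ⟨z, hz, fun y => ⟨fun h => ?_, fun h => ?_⟩⟩
    · by_contra hcon
      exact hmz y (not_lt.1 hcon) h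
    · by_contra hcon
      exact absurd ((show i ≤ ρ z from hz).trans (hmono _ _ (not_lt.1 hcon))) (not_le.2 h)
  choose m hm1 hm2 using hm
  refine ⟨I, Y, inferInstance, ρ, hYc, hIc, hreg, hIic, hsmall, ?_⟩
  intro S hS b
  have hpc : ∀ i, pc ρ i = (τ (m i)).card := by
    intro i
    rw [hτcard]
    unfold pc
    exact mk_congr (Equiv.subtypeEquivRight (fun y => (hm2 i y).symm))
  let D : Set I := {i | ∀ j < i, b j < i}
  obtain ⟨μ, hμ, i, hi, hiμ⟩ := hS {α | ∃ i ∈ D, τ (m i) = α} (by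
      rintro _ ⟨i, -, rfl⟩
      exact hτκ _) (by
      intro α hα
      obtain ⟨y, rfl⟩ := hτsurj α hα
      -- iterate the closure under `b`
      have hstep : ∀ i : I, ∃ i', i < i' ∧ ∀ j ≤ i, b j < i' := by
        intro i
        have h1 : #((b '' {j | j ≤ i} : Set I) ∪ {i} : Set I) < #I := by
          refine (mk_union_le _ _).trans_lt ?_
          rw [mk_singleton, hIc]
          exact add_lt_of_lt hθ0 ((mk_image_le.trans_lt (hIic i)).trans_eq hIc)
            (one_lt_aleph0.trans_le hθ0)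
        obtain ⟨i', hi'⟩ := hreg _ h1
        exact ⟨i', hi' i (Or.inr rfl), fun j hj => hi' _ (Or.inl ⟨j, hj, rfl⟩)⟩
      choose st hst1 hst2 using hstep
      let it : ℕ → I := fun n => st^[n] (st (ρ y))
      have hit : ∀ n, it (n + 1) = st (it n) := fun n => Function.iterate_succ_apply' _ _ _
      have hcount : #(range it) < #I := by
        rw [hIc]
        exact (mk_le_aleph0_iff.2 (countable_range it).to_subtype).trans_lt hcof
      obtain ⟨u, hu, hmu⟩ := WellFounded.has_min (wellFounded_lt (α := I))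
        {u : I | ∀ n, it n < u} (by
          obtain ⟨u, hu⟩ := hreg _ hcount
          exact ⟨u, fun n => hu _ ⟨n, rfl⟩⟩)
      refine ⟨τ (m u), ⟨u, ?_, rfl⟩, ?_⟩
      · intro j hj
        have h1 : ¬ ∀ n, it n < j := fun h => hmu j h hj
        push Not at h1
        obtain ⟨n, hn⟩ := h1
        have h2 := hst2 (it n) j hn
        rw [← hit n] at h2
        exact h2.trans (hu (n + 1))
      · have h1 : ρ y < u := (hst1 (ρ y)).trans (hu 0)
        exact ((hτlt _ _).2 ((hm2 u y).2 h1)).le) (by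
      intro α hα hlim hC
      obtain ⟨y, rfl⟩ := hτsurj α hα
      -- the supremum of the indices
      obtain ⟨u, hu, hmu⟩ := WellFounded.has_min (wellFounded_lt (α := I))
        {u : I | ∀ i ∈ D, τ (m i) < τ y → i ≤ u} (by
          refine ⟨ρ y, fun i _ hi => ?_⟩
          exact (hm1 i).trans (hmono _ _ ((hτlt _ _).1 hi).le))
      have hu' : ∀ j < u, ∃ i ∈ D, τ (m i) < τ y ∧ j < i := by
        intro j hj
        by_contra hcon
        push Not at hcon
        exact hmu j (fun i hi h => hcon i hi h) hj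
      have h1 : m u = y := by
        refine le_antisymm ?_ ?_
        · by_contra hcon
          rw [not_le] at hcon
          have h2 := (hm2 u y).1 hcon
          obtain ⟨i, hi, hiy, hρi⟩ := hu' _ h2
          have h3 := (hm2 i y).2 hρi
          exact absurd ((hτlt _ _).2 h3) (not_lt.2 hiy.le)
        · by_contra hcon
          rw [not_le] at hcon
          obtain ⟨γ, ⟨i, hi, rfl⟩, h2, h3⟩ := hC (Order.succ (τ (m u)))
            (hlim.succ_lt ((hτlt _ _).2 hcon))
          have h4 : m u < m i := (hτlt _ _).1 (Order.succ_le_iff.1 h2)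
          have h5 : ρ (m u) < i := (hm2 i _).1 h4
          exact absurd (hm1 u) (not_le.2 (h5.trans_le (hu i hi h3)))
      refine ⟨u, ?_, by rw [h1]⟩
      intro j hj
      obtain ⟨i, hi, hiy, hji⟩ := hu' j hj
      exact (hi j hji).trans_le (hu i hi hiy))
  have hpci : pc ρ i = μ := by
    rw [hpc, hiμ, card_ord]
  refine ⟨i, by rw [hpci]; exact hμ, hi, ?_⟩
  intro ν hν
  rw [hpci] at hν
  have h1 : ν.ord < τ (m i) := by
    rw [hiμ]
    exact ord_lt_ord.2 hν
  obtain ⟨y, hy⟩ := hτsurj ν.ord (h1.trans (hτκ _))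
  rw [← hy] at h1
  refine ⟨ρ y, (hm2 i y).1 ((hτlt _ _).1 h1), ?_⟩
  have h2 : ν = #{y' // y' < y} := by
    rw [← hτcard, hy, card_ord]
  rw [h2]
  exact mk_subtype_mono (fun y' h => hmono _ _ (le_of_lt h))

end P238593
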