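import Pool.Agent.Lib.P238593.Frame

/-!
# MP_238593: reflection for colourings with fewer than `κ` colours
-/

set_option autoImplicit false

namespace P238593

open Cardinal Set

theorem Equalizes.anti {μ : Cardinal.{0}} {Z Z' : Type} (h : #Z ≤ #Z') (H : Equalizes μ Z') :
    Equalizes μ Z := by
  intro X Y hX hY c
  obtain ⟨e⟩ := h
  obtain ⟨A, B, hA, hB, hAB⟩ := H X Y hX hY (fun x y => e (c x y))
  exact ⟨A, B, hA, hB, fun a ha a' ha' b hb => e.injective (hAB a ha a' ha' b hb)⟩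

theorem nonempty_of_bad {μ : Cardinal.{0}} {Z : Type} (h : ¬ Equalizes μ Z) : Nonempty Z := by
  obtain ⟨c, hc⟩ := exists_bad h (Order.succ μ).out μ.out (mk_out _) (mk_out _)
  obtain ⟨a, -, a', -, b, -, -⟩ := hc univ univ (by rw [mk_univ, mk_out]) (by rw [mk_univ, mk_out])
  exact ⟨c a b⟩

/-- the reflection theorem -/
theorem reflection {κ : Cardinal.{0}} (hcof : ℵ₀ < κ.ord.cof)
    (hpow : ∀ ν < κ, ν ^ κ.ord.cof < κ) (S : Set Cardinal.{0}) (hS : Stat κ S)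
    (lam : Cardinal.{0})
    (hbad : ∀ μ ∈ S, ∃ Z : Type, #Z < μ ∧ #Z ≤ lam ∧ ¬ Equalizes μ Z) :
    ∃ Z : Type, #Z < κ ∧ #Z ≤ lam ^ κ.ord.cof ∧ ¬ Equalizes κ Z := by
  classical
  have hκ : ℵ₀ < κ := hcof.trans_le (Ordinal.cof_ord_le κ)
  obtain ⟨I, Y, _, ρ, hY, hI, hreg, hIic, hsmall, hstat⟩ := exists_frame hκ.le hcof
  have hI0 : ℵ₀ ≤ #I := by rw [hI]; exact hcof.le
  have hθ : κ.ord.cof < κ := (cantor _).trans (hpow 2 ((nat_lt_aleph0 2).trans hκ))
  let G : Set I := {i | pc ρ i ∈ S ∧ ∀ ν < pc ρ i, ∃ j < i, ν ≤ #{y // ρ y ≤ j}}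
  choose! Zf hZ1 hZ2 hZ3 using hbad
  have hj : ∃ j : I, ∀ b : I → I, ∃ i ∈ {i | i ∈ G ∧ #(Zf (pc ρ i)) ≤ #{y // ρ y ≤ j}},
      ∀ k < i, b k < i := by
    by_contra hcon
    push Not at hcon
    choose b hb using hcon
    have hstar : ∀ m : I, ∃ u, ∀ j ≤ m, ∀ k ≤ m, b j k < u := by
      intro m
      have h1 : #(range (fun p : {j // j ≤ m} × {k // k ≤ m} => b p.1.1 p.2.1)) < #I := by
        refine mk_range_le.trans_lt ?_
        rw [mk_prod, lift_id]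
        exact mul_lt_of_lt hI0 (hIic m) (hIic m)
      obtain ⟨u, hu⟩ := hreg _ h1
      exact ⟨u, fun j hj k hk => hu _ ⟨(⟨j, hj⟩, ⟨k, hk⟩), rfl⟩⟩
    choose bs hbs using hstar
    obtain ⟨i, hi1, hi2, hi3⟩ := hstat S hS bs
    obtain ⟨j, hji, hj⟩ := hi3 _ (hZ1 _ hi1)
    obtain ⟨k, hki, hk⟩ := hb j i ⟨⟨hi1, hi3⟩, hj⟩
    have h1 := hbs (max j k) j (le_max_left _ _) k (le_max_right _ _)
    have h2 := hi2 (max j k) (max_lt hji hki)
    exact absurd hk (not_le.2 (h1.trans h2))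
  obtain ⟨j, hj⟩ := hj
  let lam' : Cardinal.{0} := min lam #{y // ρ y ≤ j}
  let Z : Type := lam'.out
  have hZ : #Z = lam' := mk_out _
  have hZle : ∀ i ∈ {i | i ∈ G ∧ #(Zf (pc ρ i)) ≤ #{y // ρ y ≤ j}}, ¬ Equalizes (pc ρ i) Z := by
    rintro i ⟨hi1, hi2⟩ H
    refine hZ3 _ hi1.1 (H.anti ?_)
    rw [hZ]
    exact le_min (hZ2 _ hi1.1) hi2
  obtain ⟨i₀, hi₀, -⟩ := hj id
  obtain ⟨z0⟩ := nonempty_of_bad (hZle i₀ hi₀)
  have hc : #(I → Z) = lam' ^ κ.ord.cof := by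
    rw [← power_def, hZ, hI]
  refine ⟨I → Z, ?_, ?_, ?_⟩
  · rw [hc]
    exact (power_le_power_right (min_le_right _ _)).trans_lt (hpow _ (hsmall j))
  · rw [hc]
    exact power_le_power_right (min_le_left _ _)
  · refine core hκ ρ hY (by rw [hI]; exact hθ) ?_ hsmall ?_ _ hj ?_ z0 hZle
    · intro i
      obtain ⟨j, hj⟩ := hreg {i} (by rw [mk_singleton]; exact one_lt_aleph0.trans_le hI0)
      exact ⟨j, hj i rfl⟩
    · intro j
      rw [← power_def, mk_option, hI]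
      exact (hpow _ (add_lt_of_lt hκ.le (hsmall j) (one_lt_aleph0.trans hκ))).le
    · rintro i ⟨hi, -⟩ ν hν
      exact hi.2 ν hν

/-- for two colours the relation is the relation of the problem -/
theorem two_colours {μ : Cardinal.{0}} (hμ : ℵ₀ ≤ μ) :
    (∀ (X Y : Type), #X = Order.succ μ → #Y = μ →
        ∀ c : X → Y → Bool, ∃ A : Set X, ∃ B : Set Y,
          #A = Order.succ μ ∧ #B = μ ∧ ∃ i : Bool, ∀ a ∈ A, ∀ b ∈ B, c a b = i) ↔
      Equalizes μ Bool := by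
  classical
  constructor
  · intro H X Y hX hY c
    obtain ⟨A, B, hA, hB, i, hi⟩ := H X Y hX hY c
    exact ⟨A, B, hA, hB, fun a ha a' ha' b hb => by rw [hi a ha b hb, hi a' ha' b hb]⟩
  · intro H X Y hX hY c
    obtain ⟨A, B, hA, hB, hAB⟩ := H X Y hX hY c
    have hA0 : A.Nonempty := by
      rw [nonempty_iff_ne_empty]
      rintro rfl
      rw [show #(∅ : Set X) = 0 by simp] at hA
      exact absurd hA (Order.succ_ne_bot μ).symm
    obtain ⟨a₀, ha₀⟩ := hA0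
    have h1 : B = {b | b ∈ B ∧ c a₀ b = true} ∪ {b | b ∈ B ∧ c a₀ b = false} := by
      ext b
      constructor
      · intro hb
        rcases h : c a₀ b with _ | _
        · exact Or.inr ⟨hb, h⟩
        · exact Or.inl ⟨hb, h⟩
      · rintro (h | h)
        · exact h.1
        · exact h.1
    have h2 : ∃ i : Bool, μ ≤ #{b | b ∈ B ∧ c a₀ b = i} := by
      by_contra hcon
      push Not at hcon
      have h3 : #B ≤ #{b | b ∈ B ∧ c a₀ b = true} + #{b | b ∈ B ∧ c a₀ b = false} := by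
        conv_lhs => rw [h1]
        exact mk_union_le _ _
      rw [hB] at h3
      exact absurd h3 (not_le.2 (add_lt_of_lt hμ (hcon true) (hcon false)))
    obtain ⟨i, hi⟩ := h2
    refine ⟨A, {b | b ∈ B ∧ c a₀ b = i}, hA, le_antisymm ?_ hi, i, ?_⟩
    · rw [← hB]
      exact mk_le_mk_of_subset (fun b hb => hb.1)
    · intro a ha b hb
      rw [hAB a ha a₀ ha₀ b hb.1]
      exact hb.2

end P238593
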